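import Pool.Agent.H46.RF.Stm

/-! Part TRN of the crew RF (`MP_9214e0_lc`): translation of names. -/

set_option autoImplicit false

namespace H24.RF

open ZFSet (pair)
open Pool.Agent.W868 H46.RF

/-- twice the union -/
noncomputable def uu (x : ZFSet.{0}) : ZFSet.{0} := ZFSet.sUnion (ZFSet.sUnion x)

theorem uu_wf : WellFounded fun u z : ZFSet.{0} => u ∈ uu z := by
  refine Subrelation.wf (r := InvImage (· < ·) ZFSet.rank) ?_ (InvImage.wf _ Ordinal.lt_wf)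
  intro u z hu
  unfold uu at hu
  obtain ⟨a, ha, hua⟩ := ZFSet.mem_sUnion.1 hu
  obtain ⟨b, hb, hab⟩ := ZFSet.mem_sUnion.1 ha
  exact (ZFSet.rank_lt_of_mem hua).trans ((ZFSet.rank_lt_of_mem hab).trans
    (ZFSet.rank_lt_of_mem hb))

theorem mem_uu {y p x : ZFSet.{0}} (h : pair y p ∈ x) : y ∈ uu x := by
  unfold uu
  refine ZFSet.mem_sUnion.2 ⟨{y}, ZFSet.mem_sUnion.2 ⟨pair y p, h, ?_⟩, by simp⟩
  simp [pair]

/-- one step of the recursion -/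
noncomputable def stp (h : ZFSet.{0} → ZFSet.{0}) (z g : ZFSet.{0}) : ZFSet.{0} :=
  im (fun s => pair (sn (fs s)) (h (sn (sn s))))
    (ZFSet.sep (fun s => fs (fs s) = fs (sn s) ∧ sn s = pair (fs (sn s)) (sn (sn s)))
      (ZFSet.prod g z))

/-- translation of names -/
noncomputable def tr (h : ZFSet.{0} → ZFSet.{0}) : ZFSet.{0} → ZFSet.{0} := wfF uu uu_wf (stp h)

theorem mem_tr (h : ZFSet.{0} → ZFSet.{0}) (x q : ZFSet.{0}) :
    q ∈ tr h x ↔ ∃ y p, pair y p ∈ x ∧ q = pair (tr h y) (h p) := by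
  rw [tr, wfF_eq, ← tr, stp, mem_im]
  constructor
  · rintro ⟨s, hs, rfl⟩
    obtain ⟨h1, h2, h3⟩ := ZFSet.mem_sep.1 hs
    obtain ⟨a, ha, t, ht, rfl⟩ := ZFSet.mem_prod.1 h1
    obtain ⟨u, hu, rfl⟩ := mem_gr.1 ha
    simp only [fs_pair, sn_pair] at h2 h3 ⊢
    refine ⟨u, sn t, ?_, rfl⟩
    rw [h2, ← h3]
    exact ht
  · rintro ⟨y, p, hy, rfl⟩
    refine ⟨pair (pair y (tr h y)) (pair y p), ZFSet.mem_sep.2 ⟨?_, ?_, ?_⟩, ?_⟩
    · exact ZFSet.pair_mem_prod.2 ⟨mem_gr.2 ⟨y, mem_uu hy, rfl⟩, hy⟩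
    · simp
    · simp
    · simp

theorem tr_dfn {M : Set ZFSet.{0}} (hM : IsZF M) (h : ZFSet.{0} → ZFSet.{0})
    (hh : DfnF M M (fun w : Fin 1 → ZFSet.{0} => h (w 0))) :
    DfnF M M (fun w : Fin 1 → ZFSet.{0} => tr h (w 0)) := by
  have hB := hM.base
  refine hM.wfrec (pr := uu) (G := stp h) (F := tr h) uu_wf ?_ ?_ (fun z => ?_)
  · exact hB.sUnion' (hB.sUnion' (DfnF.proj 0))
  · refine hM.im' (F := fun v : Fin 2 → ZFSet.{0} => ZFSet.sep (fun s =>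
      fs (fs s) = fs (sn s) ∧ sn s = pair (fs (sn s)) (sn (sn s))) (ZFSet.prod (v 1) (v 0)))
      (h := fun s _ => pair (sn (fs s)) (h (sn (sn s)))) ?_ ?_
    · refine hM.sep' (F := fun v : Fin 2 → ZFSet.{0} => ZFSet.prod (v 1) (v 0))
        (Q := fun s _ => fs (fs s) = fs (sn s) ∧ sn s = pair (fs (sn s)) (sn (sn s))) ?_ ?_
      · exact hM.prod' (DfnF.proj 1) (DfnF.proj 0)
      · refine Dfn.and (Dfn.eq (hM.fs' (hM.fs' (DfnF.proj 0))) (hM.fs' (hM.sn' (DfnF.proj 0))))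
          (Dfn.eq (hM.sn' (DfnF.proj 0)) (hB.pair' (hM.fs' (hM.sn' (DfnF.proj 0)))
          (hM.sn' (hM.sn' (DfnF.proj 0)))))
    · exact hB.pair' (hM.sn' (hM.fs' (DfnF.proj 0)))
        (DfnF.comp1 (f := h) hh (hM.sn' (hM.sn' (DfnF.proj 0))))
  · rw [tr, wfF_eq]

theorem trn : S_TRN := by
  intro M hM h hh G G' hG
  have hd := tr_dfn hM h hh
  have key : ∀ x : ZFSet.{0}, x ∈ M → ev G (tr h x) = ev G' x := by
    intro x
    induction x using uu_wf.induction with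
    | _ x ih =>
    intro hx
    ext z
    rw [mem_ev, mem_ev]
    constructor
    · rintro ⟨y', p', h1, h2, rfl⟩
      obtain ⟨y, p, h3, h4⟩ := (mem_tr h x _).1 h1
      obtain ⟨rfl, rfl⟩ := ZFSet.pair_inj.1 h4
      obtain ⟨hy, hp⟩ := hM.of_pair_mem (hM.trans _ hx _ h3)
      exact ⟨y, p, h3, (hG p hp).2 h2, (ih y (mem_uu h3) hy).symm⟩
    · rintro ⟨y, p, h1, h2, rfl⟩
      obtain ⟨hy, hp⟩ := hM.of_pair_mem (hM.trans _ hx _ h1)
      exact ⟨tr h y, h p, (mem_tr h x _).2 ⟨y, p, h1, rfl⟩, (hG p hp).1 h2, ih y (mem_uu h1) hy⟩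
  rintro z ⟨x, hx, rfl⟩
  exact ⟨tr h x, hd.1 (fun _ => x) (fun _ => hx), key x hx⟩

end H24.RF
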